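import Mathlib

/-!
# Hermitian Lie algebras in complex form

`V` is the space `𝔤^{1,0}` of a Lie algebra with Hermitian structure, `A y x = D_y^* x`, where
`D_y = ∇_y` (`y` of type `(1,0)`), so `[x, ȳ] = A y x - conj (A x y)`, and `br` is the bracket of
`V`.  Mathlib's inner product `⟪a, b⟫` is conjugate linear in `a`.
-/

open scoped InnerProductSpace ComplexConjugate

namespace Pool.Agent.Lib.CSol

/-- Complex form of a Lie algebra with Hermitian structure. -/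
structure HLA (V : Type*) [NormedAddCommGroup V] [InnerProductSpace ℂ V] where
  /-- `A y x = D_y^* x`, conjugate linear in `y`, linear in `x` -/
  A : V →ₗ⋆[ℂ] V →ₗ[ℂ] V
  /-- the bracket of `V = 𝔤^{1,0}` -/
  br : V →ₗ[ℂ] V →ₗ[ℂ] V
  br_self : ∀ x, br x x = 0
  jac : ∀ x y z, br x (br y z) = br (br x y) z + br y (br x z)
  rep : ∀ x y z, A (br x y) z = A y (A x z) - A x (A y z)
  j1 : ∀ x y z, A z (br x y) = br x (A z y) - br y (A z x) - A (A y z) x + A (A x z) y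

namespace HLA

variable {V : Type*} [NormedAddCommGroup V] [InnerProductSpace ℂ V] (h : HLA V)

theorem br_skew (x y : V) : h.br x y = -h.br y x := by
  have h1 := h.br_self (x + y)
  simp only [map_add, LinearMap.add_apply, h.br_self, zero_add, add_zero] at h1
  rw [add_comm] at h1
  exact eq_neg_of_add_eq_zero_left h1

variable [FiniteDimensional ℂ V]

/-- `D x = ∇_x` on `V`, the adjoint of `A x`. -/
noncomputable def D : V →ₗ[ℂ] V →ₗ[ℂ] V :=
  (LinearMap.adjoint (𝕜 := ℂ) (E := V) (F := V)).toLinearMap.comp h.A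

theorem D_def (x : V) : h.D x = LinearMap.adjoint (h.A x) := rfl

/-- `⟨D_x y, z⟩ = ⟨y, A_x z⟩` -/
theorem inner_D_left (x y z : V) : ⟪h.D x y, z⟫_ℂ = ⟪y, h.A x z⟫_ℂ := by
  rw [D_def, LinearMap.adjoint_inner_left]

theorem inner_D_right (x y z : V) : ⟪z, h.D x y⟫_ℂ = ⟪h.A x z, y⟫_ℂ := by
  rw [D_def, LinearMap.adjoint_inner_right]

/-- `D_{[x,y]} = [D_x, D_y]` -/
theorem D_br (x y z : V) : h.D (h.br x y) z = h.D x (h.D y z) - h.D y (h.D x z) := by
  refine ext_inner_right ℂ fun w => ?_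
  rw [inner_D_left, h.rep, inner_sub_right, inner_sub_left, inner_D_left, inner_D_left,
    inner_D_left, inner_D_left]

/-- The Chern holomorphic sectional curvature
`H(x) = |D_x x|² - |D_x^* x|² - 2 Re ⟨D_{D_x^* x} x, x⟩` (not divided by `|x|⁴`). -/
noncomputable def H (x : V) : ℝ :=
  ‖h.D x x‖ ^ 2 - ‖h.A x x‖ ^ 2 - 2 * (⟪x, h.D (h.A x x) x⟫_ℂ).re

/-- The coefficient of `ε²` in the circle average of `H (u + ε x)`. -/
noncomputable def E2 (u x : V) : ℝ :=
  ‖h.D u x + h.D x u‖ ^ 2 - ‖h.A u x‖ ^ 2 - ‖h.A x u‖ ^ 2 - 2 * (⟪h.A x x, h.A u u⟫_ℂ).re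
    - 2 * ((⟪x, h.D (h.A u u) x⟫_ℂ).re + (⟪u, h.D (h.A x x) u⟫_ℂ).re
      + (⟪x, h.D (h.A u x) u⟫_ℂ).re + (⟪u, h.D (h.A x u) x⟫_ℂ).re)

/-- Unimodularity: `tr ad_x = tr D_x` on `V`. -/
def Uni : Prop := ∀ x, LinearMap.trace ℂ V (h.br x) = LinearMap.trace ℂ V (h.D x)

/-- `l` represents a real character `φ` of `𝔤`: `φ|_V = ⟪l, ·⟫` and `φ([𝔤,𝔤]) = 0`. -/
structure IsChar (l : V) : Prop where
  br : ∀ x y, ⟪l, h.br x y⟫_ℂ = 0
  sym : ∀ x y, ⟪h.D x l, y⟫_ℂ = ⟪x, h.D y l⟫_ℂ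

/-- `(m, m')` represents a complex character `w` of `𝔤_ℂ`: `w|_V = ⟪m, ·⟫`, `w̄|_V = ⟪m', ·⟫`. -/
structure IsChar2 (m m' : V) : Prop where
  br : ∀ x y, ⟪m, h.br x y⟫_ℂ = 0
  br' : ∀ x y, ⟪m', h.br x y⟫_ℂ = 0
  sym : ∀ x y, ⟪h.D x m, y⟫_ℂ = ⟪x, h.D y m'⟫_ℂ

/-- `η + θ̄` is a joint eigenvector of `ad 𝔤_ℂ` with weight `w`, `w|_V = ⟪m, ·⟫`,
`w̄|_V = ⟪m', ·⟫`. -/
structure IsWt (m m' η θ : V) : Prop where
  w1 : ∀ x, h.A x η = -(⟪x, m'⟫_ℂ • η)
  w2 : ∀ x, h.A x θ = -(⟪x, m⟫_ℂ • θ)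
  w3 : ∀ x, h.br x η = ⟪m, x⟫_ℂ • η - h.A θ x
  w4 : ∀ x, h.br x θ = ⟪m', x⟫_ℂ • θ - h.A η x

/-- The (strong) flatness property proved in the end. -/
structure Flat : Prop where
  comm : ∀ x y z, h.D x (h.A y z) = h.A y (h.D x z)
  kill : ∀ x y z, h.A (h.A y x) z = 0

/-- The kernel of `x ↦ D x l`. -/
noncomputable def K (l : V) : Submodule ℂ V := LinearMap.ker (h.D.flip l)

theorem mem_K {l x : V} : x ∈ h.K l ↔ h.D x l = 0 := by
  rw [K, LinearMap.mem_ker, LinearMap.flip_apply]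

/-- An orthonormal frame adapted to `K l`: `u i` span `K l`, `w j` are eigenvectors of
`x ↦ D x l` with eigenvalues `beta j ≠ 0`. -/
structure Frame (l : V) (p q : ℕ) where
  u : Fin p → V
  w : Fin q → V
  beta : Fin q → ℝ
  beta_ne : ∀ j, beta j ≠ 0
  Bu : ∀ i, h.D (u i) l = 0
  Bw : ∀ j, h.D (w j) l = (beta j : ℂ) • w j
  uu : ∀ i k, ⟪u i, u k⟫_ℂ = if i = k then 1 else 0
  ww : ∀ i k, ⟪w i, w k⟫_ℂ = if i = k then 1 else 0
  uw : ∀ i j, ⟪u i, w j⟫_ℂ = 0
  expand : ∀ x, x = ∑ i, ⟪u i, x⟫_ℂ • u i + ∑ j, ⟪w j, x⟫_ℂ • w j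
  trace_eq : ∀ T : V →ₗ[ℂ] V,
    LinearMap.trace ℂ V T = ∑ i, ⟪u i, T (u i)⟫_ℂ + ∑ j, ⟪w j, T (w j)⟫_ℂ

/-- The properties of the sub-Hermitian Lie algebra `U ⊕ Ū` used in the induction. -/
structure Nice (U : Submodule ℂ V) : Prop where
  H0 : ∀ u ∈ U, h.H u = 0
  DU : ∀ u ∈ U, h.D u u ∈ U
  kill : ∀ u ∈ U, ∀ v ∈ U, ∀ w ∈ U, h.A (h.A v u) w = 0
  zeta : ∀ (n : ℕ) (b : OrthonormalBasis (Fin n) ℂ U), ∑ i, h.A (b i : V) (b i : V) = 0

end HLA

/-! ### The complexified Lie algebra -/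

/-- The complexification `𝔤_ℂ = V ⊕ V̄` of `h`: a pair `(a, b)` stands for `a + b̄`. -/
def HLA.Cx {V : Type*} [NormedAddCommGroup V] [InnerProductSpace ℂ V] (_ : HLA V) : Type _ :=
  V × V

namespace HLA

variable {V : Type*} [NormedAddCommGroup V] [InnerProductSpace ℂ V] (h : HLA V)

instance : AddCommGroup h.Cx := inferInstanceAs (AddCommGroup (V × V))

/-- constructor -/
def pr (a b : V) : h.Cx := ((a, b) : V × V)

/-- the `V`-component of `a + b̄` is `a` -/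
def fst (y : h.Cx) : V := Prod.fst (y : V × V)

/-- the conjugate `b` of the `V̄`-component of `a + b̄` -/
def snd (y : h.Cx) : V := Prod.snd (y : V × V)

@[simp] theorem fst_pr (a b : V) : h.fst (h.pr a b) = a := rfl
@[simp] theorem snd_pr (a b : V) : h.snd (h.pr a b) = b := rfl
theorem pr_eta (y : h.Cx) : h.pr (h.fst y) (h.snd y) = y := rfl
theorem cx_ext {y z : h.Cx} (h1 : h.fst y = h.fst z) (h2 : h.snd y = h.snd z) : y = z :=
  Prod.ext h1 h2
@[simp] theorem fst_zero : h.fst 0 = 0 := rfl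
@[simp] theorem snd_zero : h.snd 0 = 0 := rfl
@[simp] theorem fst_add (y z : h.Cx) : h.fst (y + z) = h.fst y + h.fst z := rfl
@[simp] theorem snd_add (y z : h.Cx) : h.snd (y + z) = h.snd y + h.snd z := rfl
@[simp] theorem fst_neg (y : h.Cx) : h.fst (-y) = -h.fst y := rfl
@[simp] theorem snd_neg (y : h.Cx) : h.snd (-y) = -h.snd y := rfl
@[simp] theorem fst_sub (y z : h.Cx) : h.fst (y - z) = h.fst y - h.fst z := rfl
@[simp] theorem snd_sub (y z : h.Cx) : h.snd (y - z) = h.snd y - h.snd z := rfl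

/-- `c • (a + b̄) = c a + conj (c̄ b)` -/
instance : Module ℂ h.Cx where
  smul c y := h.pr (c • h.fst y) (conj c • h.snd y)
  one_smul y := h.cx_ext (one_smul ℂ _) (by
    change conj (1 : ℂ) • h.snd y = h.snd y
    rw [map_one, one_smul])
  mul_smul c d y := h.cx_ext (mul_smul c d _) (by
    change conj (c * d) • h.snd y = conj c • conj d • h.snd y
    rw [map_mul, mul_smul])
  smul_zero c := h.cx_ext (smul_zero c) (smul_zero (conj c))
  smul_add c y z := h.cx_ext (smul_add c _ _) (smul_add (conj c) _ _)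
  add_smul c d y := h.cx_ext (add_smul c d _) (by
    change conj (c + d) • h.snd y = conj c • h.snd y + conj d • h.snd y
    rw [map_add, add_smul])
  zero_smul y := h.cx_ext (zero_smul ℂ _) (by
    change conj (0 : ℂ) • h.snd y = 0
    rw [map_zero, zero_smul])

@[simp] theorem fst_smul (c : ℂ) (y : h.Cx) : h.fst (c • y) = c • h.fst y := rfl
@[simp] theorem snd_smul (c : ℂ) (y : h.Cx) : h.snd (c • y) = conj c • h.snd y := rfl

instance : Bracket h.Cx h.Cx where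
  bracket y z := h.pr
    (h.br (h.fst y) (h.fst z) + h.A (h.snd z) (h.fst y) - h.A (h.snd y) (h.fst z))
    (h.br (h.snd y) (h.snd z) + h.A (h.fst z) (h.snd y) - h.A (h.fst y) (h.snd z))

theorem fst_lie (y z : h.Cx) : h.fst ⁅y, z⁆ =
    h.br (h.fst y) (h.fst z) + h.A (h.snd z) (h.fst y) - h.A (h.snd y) (h.fst z) := rfl
theorem snd_lie (y z : h.Cx) : h.snd ⁅y, z⁆ =
    h.br (h.snd y) (h.snd z) + h.A (h.fst z) (h.snd y) - h.A (h.fst y) (h.snd z) := rfl

theorem leibniz_aux (a b c d e f : V) :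
    h.br a (h.br c e + h.A f c - h.A d e) + h.A (h.br d f + h.A e d - h.A c f) a
      - h.A b (h.br c e + h.A f c - h.A d e) =
    (h.br (h.br a c + h.A d a - h.A b c) e + h.A f (h.br a c + h.A d a - h.A b c)
      - h.A (h.br b d + h.A c b - h.A a d) e) +
    (h.br c (h.br a e + h.A f a - h.A b e) + h.A (h.br b f + h.A e b - h.A a f) c
      - h.A d (h.br a e + h.A f a - h.A b e)) := by
  simp only [map_add, map_sub, LinearMap.add_apply, LinearMap.sub_apply, h.rep]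
  rw [h.j1 c e b, h.j1 a c f, h.j1 a e d, h.jac a c e]
  rw [h.br_skew (h.A d a) e, h.br_skew (h.A b c) e]
  abel

instance : LieRing h.Cx where
  add_lie x y z := h.cx_ext (by
      simp only [fst_lie, fst_add, snd_add, map_add, LinearMap.add_apply]; abel) (by
      simp only [snd_lie, fst_add, snd_add, map_add, LinearMap.add_apply]; abel)
  lie_add x y z := h.cx_ext (by
      simp only [fst_lie, fst_add, snd_add, map_add, LinearMap.add_apply]; abel) (by
      simp only [snd_lie, fst_add, snd_add, map_add, LinearMap.add_apply]; abel)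
  lie_self x := h.cx_ext (by simp only [fst_lie, h.br_self]; simp) (by
      simp only [snd_lie, h.br_self]; simp)
  leibniz_lie x y z := h.cx_ext
    (by
      simp only [fst_lie, snd_lie, fst_add]
      exact h.leibniz_aux _ _ _ _ _ _)
    (by
      simp only [fst_lie, snd_lie, snd_add]
      exact h.leibniz_aux _ _ _ _ _ _)

instance : LieAlgebra ℂ h.Cx where
  lie_smul c y z := h.cx_ext
    (by
      simp only [fst_lie, fst_smul, snd_smul, map_smul, LinearMap.map_smulₛₗ,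
        LinearMap.smul_apply, Complex.conj_conj]
      module)
    (by
      simp only [snd_lie, fst_smul, snd_smul, map_smul, LinearMap.map_smulₛₗ,
        LinearMap.smul_apply]
      module)

/-- Solvability of `𝔤_ℂ`. -/
def Solv : Prop := LieAlgebra.IsSolvable h.Cx

end HLA

end Pool.Agent.Lib.CSol
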