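import Pool.Agent.Lib.CSol.Mg.G019
import Pool.Agent.Lib.CSol.Mg.G002
import Pool.Agent.Lib.CSol.Mg.G001
import Pool.Agent.Lib.CSol.Mg.G003
import Pool.Agent.Lib.ThZ.Z16

open scoped InnerProductSpace ComplexConjugate

namespace Pool.Agent.Lib.CSol

open Pool.Agent.Lib.MP_a150d7_gt Pool.Agent.Lib.ThZ

/-- Solvable unimodular Hermitian Lie algebras with nonpositive Chern holomorphic sectional
curvature are Chern flat. -/
theorem solvable_nonpos {𝔤 : Type*} [LieRing 𝔤] [LieAlgebra ℝ 𝔤] [FiniteDimensional ℝ 𝔤]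
    [LieAlgebra.IsSolvable 𝔤]
    (g : 𝔤 →ₗ[ℝ] 𝔤 →ₗ[ℝ] ℝ) (J : 𝔤 →ₗ[ℝ] 𝔤) (hgJ : IsHermitianStructure g J)
    (huni : ∀ x : 𝔤, LinearMap.trace ℝ 𝔤 (LieAlgebra.ad ℝ 𝔤 x) = 0)
    (D : 𝔤 →ₗ[ℝ] 𝔤 →ₗ[ℝ] 𝔤) (hD : IsChernConnection g J D)
    (hc : ∀ x, x ≠ 0 → holSec g J D x ≤ 0) : ∀ x y z, curv D x y z = 0 := by
  let core : InnerProductSpace.Core ℝ 𝔤 :=
    { inner := fun x y => g x y
      conj_inner_symm := fun x y => by simp only [conj_trivial]; exact hgJ.symm y x
      re_inner_nonneg := fun x => by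
        by_cases hx : x = 0
        · subst hx; simp
        · exact (hgJ.pos x hx).le
      add_left := fun x y z => by simp only [map_add, LinearMap.add_apply]
      smul_left := fun x y r => by simp only [map_smul, LinearMap.smul_apply, smul_eq_mul,
        conj_trivial]
      definite := fun x hx => by
        by_contra hne
        exact absurd hx (hgJ.pos x hne).ne' }
  let i1 : NormedAddCommGroup 𝔤 := core.toNormedAddCommGroup
  let i2 : InnerProductSpace ℝ 𝔤 := InnerProductSpace.ofCore core.toCore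
  have hin : ∀ x y : 𝔤, ⟪x, y⟫_ℝ = g x y := fun x y => rfl
  let br : 𝔤 →ₗ[ℝ] 𝔤 →ₗ[ℝ] 𝔤 := (LieAlgebra.ad ℝ 𝔤 : 𝔤 →ₗ[ℝ] Module.End ℝ 𝔤)
  have hbr : ∀ x y, br x y = ⁅x, y⁆ := fun x y => rfl
  have hH : HermLie br J :=
    { self := fun x => by rw [hbr, lie_self]
      jacobi := fun x y z => by rw [hbr, hbr, hbr, hbr, hbr, hbr, leibniz_lie]
      JJ := hgJ.sq_J
      isoJ := fun x y => by rw [hin, hin, hgJ.invariant]
      integ := fun x y => by
        rw [hbr, hbr, hbr, hbr, map_add, ← add_assoc]; exact hgJ.integrable x y }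
  have hT : ∀ x y, D (J x) y - D y (J x) - br (J x) y = D x (J y) - D (J y) x - br x (J y) :=
    fun x y => hD.torsion_type x y
  have hQ : ∀ x, Qf (Ac br J) x ≤ 0 := by
    intro x
    have h2 := hH.curv_hol (fun x y z => hD.metric x y z) hD.complex hT x
    by_cases hx : x = 0
    · subst hx; simp [Qf]
    · have h1 := hc x hx
      unfold holSec at h1
      have h3 : 0 < (g x x) ^ 2 := pow_pos (hgJ.pos x hx) 2
      have h4 : g (curv D x (J x) (J x)) x ≤ 0 := by
        by_contra hlt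
        exact absurd (div_pos (not_le.1 hlt) h3) (not_lt.2 h1)
      have h5 : (2 : ℝ) * Qf (Ac br J) x ≤ 0 := by
        rw [← h2]
        exact h4
      linarith
  obtain ⟨n, ⟨M⟩⟩ := exists_model hH
  have hs : M.g.Solv := solv_of_real M.g (M.ψ : 𝔤 →ₗ[ℝ] _) M.ψ.surjective
    (fun x y => M.ψb x y)
  have hf : M.g.Flat := main_flat _ _ M.g rfl hs (model_uni M (fun x => huni x))
    (fun v => by
      obtain ⟨x, rfl⟩ := M.ψ.surjective v
      rw [model_H M]
      exact hQ x)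
  intro x y z
  have hDe : ∀ x z, D x z = Ac br J x z - At (Ac br J) x z := fun x z =>
    hH.D_eq (fun x y z => hD.metric x y z) hD.complex hT x z
  unfold curv
  rw [hDe y z, hDe x z, hDe x, hDe y, hDe ⁅x, y⁆ z]
  exact model_flat M hf x y z

end Pool.Agent.Lib.CSol
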